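import Pool.Agent.Helper68_Nets.ShortGeod

/-!
Module M2 of MP_f059bd_gt: short geodesics of a smooth Riemannian metric on the plane.
-/

set_option autoImplicit false
set_option maxSynthPendingDepth 3

open Set Filter Topology Metric
open scoped ContDiff

namespace Pool.Agent.Helper68Nets

open Pool.Agent.Helper4Nets

/-- Data produced by the inverse function theorem. -/
lemma exists_pt (g : E2 → E2 →L[ℝ] E2 →L[ℝ] ℝ) (hg : ContDiff ℝ ∞ g)
    (hpos : ∀ x v, v ≠ 0 → 0 < g x v v) (z : E2) (R : ℝ) (hR : 0 < R) :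
    ∃ pt : E2 × E2 → XX E2, ∃ δ : ℝ, 0 < δ ∧ δ ≤ R ∧
      (∀ q ∈ ball (z, z) δ, ContDiffAt ℝ 5 pt q ∧ (pt q).1 = q ∧ IsGeod g (pt q) ∧
        ‖G (pt q) - constL z‖ < R) ∧
      (∀ x ∈ ball z δ, pt (x, x) = ((x, x), 0) ∧
        fderiv ℝ pt (x, x) = ContinuousLinearMap.inl ℝ (E2 × E2) C(UI, E2)) := by
  have hG := contDiff_Gam g hg hpos
  have hc : Continuous (Gam g) := hG.continuous
  have hΨ : ContDiff ℝ ∞ (Psi g hc) := contDiff_Psi g hc hg hpos
  have hd : HasFDerivAt (Psi g hc)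
      ((ContinuousLinearEquiv.refl ℝ (XX E2) : XX E2 ≃L[ℝ] XX E2) : XX E2 →L[ℝ] XX E2)
      (((z, z), 0) : XX E2) := hasFDerivAt_Psi g hc hg hpos z
  have hn : (∞ : WithTop ℕ∞) ≠ 0 := by simp
  have hat : ContDiffAt ℝ ∞ (Psi g hc) (((z, z), 0) : XX E2) := hΨ.contDiffAt
  have hs := hat.hasStrictFDerivAt' hd hn
  obtain ⟨θ, hθdef⟩ : ∃ θ, θ = hs.localInverse (Psi g hc) _ _ := ⟨_, rfl⟩
  have hθ : ContDiffAt ℝ ∞ θ (((z, z), 0) : XX E2) := by
    have := hat.to_localInverse hd hn
    rw [Psi_diag] at this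
    rw [hθdef]
    exact this
  have hθ0 : θ ((z, z), 0) = ((z, z), 0) := by
    have := hs.localInverse_apply_image
    rw [Psi_diag] at this
    rw [hθdef]
    exact this
  have hright : ∀ᶠ y in 𝓝 (((z, z), 0) : XX E2), Psi g hc (θ y) = y := by
    have := hs.eventually_right_inverse
    rw [Psi_diag] at this
    rw [hθdef]
    exact this
  have hleft : ∀ᶠ y in 𝓝 (((z, z), 0) : XX E2), θ (Psi g hc y) = y := by
    rw [hθdef]
    exact hs.eventually_left_inverse
  obtain ⟨pt, hpt⟩ : ∃ pt : E2 × E2 → XX E2, pt = fun q => θ (q, 0) := ⟨_, rfl⟩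
  have hιc : ContDiff ℝ ∞ (fun q : E2 × E2 => ((q, 0) : XX E2)) :=
    contDiff_id.prodMk contDiff_const
  have hptd : ContDiffAt ℝ ∞ pt (z, z) := by
    rw [hpt]
    exact ContDiffAt.comp (g := θ) (f := fun q : E2 × E2 => ((q, 0) : XX E2)) (z, z) hθ
      hιc.contDiffAt
  have hι : Tendsto (fun q : E2 × E2 => ((q, 0) : XX E2)) (𝓝 (z, z)) (𝓝 ((z, z), 0)) :=
    hιc.continuous.continuousAt
  have e1 : ∀ᶠ q in 𝓝 ((z, z) : E2 × E2), ContDiffAt ℝ 5 pt q := by
    have h5 : ContDiffAt ℝ 5 pt (z, z) := hptd.of_le (by norm_cast)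
    exact h5.eventually (by simp)
  have e2 : ∀ᶠ q in 𝓝 ((z, z) : E2 × E2), Psi g hc (pt q) = (q, 0) := by
    rw [hpt]
    exact hι.eventually hright
  have e3 : ∀ᶠ q in 𝓝 ((z, z) : E2 × E2), θ (Psi g hc (q, 0)) = (q, 0) := hι.eventually hleft
  have e4 : ∀ᶠ q in 𝓝 ((z, z) : E2 × E2), ‖G (pt q) - constL z‖ < R := by
    have hcont : ContinuousAt (fun q => ‖G (pt q) - constL z‖) ((z, z) : E2 × E2) := by
      have h1 : ContinuousAt (fun q => G (pt q)) ((z, z) : E2 × E2) :=
        ContinuousAt.comp (g := fun P : XX E2 => G P) (f := pt)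
          contDiff_G.continuous.continuousAt hptd.continuousAt
      exact (h1.sub continuousAt_const).norm
    have h0 : ‖G (pt (z, z)) - constL z‖ < R := by
      have h1 : pt (z, z) = ((z, z), 0) := by rw [hpt]; exact hθ0
      have h2 : G (E := E2) ((z, z), 0) = constL z := by
        ext1 t
        simp [G_apply]
      rw [h1, h2, sub_self, norm_zero]
      exact hR
    exact hcont.eventually_lt continuousAt_const h0
  obtain ⟨δ₀, hδ₀, hball⟩ := Metric.eventually_nhds_iff_ball.1 (e1.and (e2.and (e3.and e4)))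
  refine ⟨pt, min δ₀ R, lt_min hδ₀ hR, min_le_right _ _, ?_, ?_⟩
  · intro q hq
    have hq' : q ∈ ball ((z, z) : E2 × E2) δ₀ := ball_subset_ball (min_le_left _ _) hq
    obtain ⟨h1, h2, h3, h4⟩ := hball q hq'
    refine ⟨h1, ?_, ?_, h4⟩
    · exact congrArg Prod.fst h2
    · intro t
      have h5 : Phi g hc (pt q) = 0 := congrArg Prod.snd h2
      have h6 : (pt q).2 = nem (Gam g) hc (W (pt q)) := sub_eq_zero.1 h5
      have := DFunLike.congr_fun h6 t
      simpa using this
  · intro x hx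
    have hmem : ((x, x) : E2 × E2) ∈ ball ((z, z) : E2 × E2) δ₀ := by
      rw [← ball_prod_same]
      exact ⟨ball_subset_ball (min_le_left _ _) hx, ball_subset_ball (min_le_left _ _) hx⟩
    have hdiag : pt (x, x) = ((x, x), 0) := by
      obtain ⟨h1, h2, h3, h4⟩ := hball _ hmem
      rw [Psi_diag] at h3
      rw [hpt]
      exact h3
    refine ⟨hdiag, ?_⟩
    have hev : (fun q => Psi g hc (pt q)) =ᶠ[𝓝 ((x, x) : E2 × E2)] fun q => (q, 0) := by
      filter_upwards [isOpen_ball.mem_nhds hmem] with q hq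
      exact (hball q hq).2.1
    have hptx : HasFDerivAt pt (fderiv ℝ pt (x, x)) (x, x) :=
      ((hball _ hmem).1.differentiableAt (by simp)).hasFDerivAt
    have hΨx : HasFDerivAt (Psi g hc) (ContinuousLinearMap.id ℝ (XX E2)) (pt (x, x)) := by
      rw [hdiag]
      exact hasFDerivAt_Psi g hc hg hpos x
    have h1 : HasFDerivAt (fun q => Psi g hc (pt q))
        ((ContinuousLinearMap.id ℝ (XX E2)).comp (fderiv ℝ pt (x, x))) (x, x) :=
      HasFDerivAt.comp (g := Psi g hc) (f := pt) (x, x) hΨx hptx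
    have h2 : HasFDerivAt (fun q : E2 × E2 => ((q, 0) : XX E2))
        (ContinuousLinearMap.inl ℝ (E2 × E2) C(UI, E2)) (x, x) :=
      (ContinuousLinearMap.inl ℝ (E2 × E2) C(UI, E2)).hasFDerivAt
    have h3 := (h1.congr_of_eventuallyEq hev.symm).unique h2
    rw [← h3]
    exact (ContinuousLinearMap.id_comp _).symm

/-- Short geodesics of a smooth Riemannian metric `g` on the plane, with a local form of the
prolongation property. -/
def ShortGeodesicsLoc : Prop :=
  ∀ (g : E2 → E2 →L[ℝ] E2 →L[ℝ] ℝ), ContDiff ℝ ∞ g → (∀ x v w, g x v w = g x w v) →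
    (∀ x v, v ≠ 0 → 0 < g x v v) → ∀ (z : E2) (R : ℝ), 0 < R →
    ∃ (δ : ℝ) (γ γ' : E2 → E2 → ℝ → E2) (En : E2 × E2 → ℝ), 0 < δ ∧ δ ≤ R ∧
      ContDiffOn ℝ 4 En (ball z δ ×ˢ ball z δ) ∧
      (∀ x ∈ ball z δ, ∀ y ∈ ball z δ,
        γ x y 0 = x ∧ γ x y 1 = y ∧
        (∀ t ∈ Icc (0 : ℝ) 1, γ x y t ∈ ball z R) ∧
        (∀ t ∈ Icc (0 : ℝ) 1, HasDerivWithinAt (γ x y) (γ' x y t) (Icc 0 1) t) ∧
        ContinuousOn (γ' x y) (Icc 0 1) ∧
        (∀ t ∈ Icc (0 : ℝ) 1, g (γ x y t) (γ' x y t) (γ' x y t) = 2 * En (x, y)) ∧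
        (∀ u v, fderiv ℝ En (x, y) (u, v) = g y (γ' x y 1) v - g x (γ' x y 0) u)) ∧
      (∀ x ∈ ball z δ, En (x, x) = 0 ∧ ∀ u v u' v', D2 En (x, x) (u, v) (u', v') =
        g x (u - v) (u' - v')) ∧
      ∀ ε > 0, ∃ δ' > 0, ∀ p ∈ ball z δ', ∀ m ∈ ball z δ', ∃ q ∈ ball z ε, γ p q (1 / 2) = m

/-- MODULE M2. -/
theorem shortGeodesicsLoc : ShortGeodesicsLoc := by
  intro g hg hsymm hpos z R hR
  obtain ⟨pt, δ, hδ, hδR, hpt, hdiag⟩ := exists_pt g hg hpos z R hR
  have hQ := contDiff_Qf g hg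
  obtain ⟨En, hEn⟩ : ∃ En : E2 × E2 → ℝ, En = fun q => integ (nem (Qf g) hQ.continuous
    (W (pt q))) := ⟨_, rfl⟩
  have hmem : ∀ x ∈ ball z δ, ∀ y ∈ ball z δ, ((x, y) : E2 × E2) ∈ ball (z, z) δ := by
    intro x hx y hy
    rw [← ball_prod_same]
    exact ⟨hx, hy⟩
  have hmem' : ∀ q ∈ ball ((z, z) : E2 × E2) δ, q.1 ∈ ball z δ ∧ q.2 ∈ ball z δ := by
    intro q hq
    rw [← ball_prod_same] at hq
    exact ⟨hq.1, hq.2⟩
  -- smoothness of the energy
  have hEnC : ∀ q ∈ ball ((z, z) : E2 × E2) δ, ContDiffAt ℝ 5 En q := by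
    intro q hq
    rw [hEn]
    have h1 : ContDiffAt ℝ 5 (fun q => W (E := E2) (pt q)) q :=
      ContDiffAt.comp (g := fun P : XX E2 => W (E := E2) P) (f := pt) q
        ((contDiff_W (E := E2)).contDiffAt.of_le (by norm_cast)) (hpt q hq).1
    have h2 : ContDiffAt ℝ 5 (fun q => nem (Qf g) hQ.continuous (W (pt q))) q :=
      ContDiffAt.comp (g := nem (Qf g) hQ.continuous) (f := fun q => W (pt q)) q
        ((contDiff_nem (Qf g) hQ.continuous hQ).contDiffAt.of_le (by norm_cast)) h1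
    exact ContDiffAt.comp (g := fun u : C(UI, ℝ) => integ u)
      (f := fun q => nem (Qf g) hQ.continuous (W (pt q))) q
      (contDiff_integ.contDiffAt.of_le (by norm_cast)) h2
  -- first variation
  have hEnD : ∀ q ∈ ball ((z, z) : E2 × E2) δ, ∀ d : E2 × E2, fderiv ℝ En q d =
      g q.2 (G' (pt q) one') d.2 - g q.1 (G' (pt q) zero') d.1 := by
    intro q hq d
    have hptq : HasFDerivAt pt (fderiv ℝ pt q) q :=
      ((hpt q hq).1.differentiableAt (by simp)).hasFDerivAt
    have h1 : HasFDerivAt (fun q => W (pt q)) ((W (E := E2)).comp (fderiv ℝ pt q)) q :=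
      HasFDerivAt.comp (g := fun P : XX E2 => W P) (f := pt) q (hasFDerivAt_W _) hptq
    have h2 := HasFDerivAt.comp (g := nem (K := UI) (Qf g) hQ.continuous)
      (f := fun q => W (pt q)) q (hasFDerivAt_nem (Qf g) (hQ.of_le (by norm_cast)) _) h1
    have h3 := HasFDerivAt.comp (g := fun u : C(UI, ℝ) => integ u)
      (f := fun q => nem (Qf g) hQ.continuous (W (pt q))) q (hasFDerivAt_integ _) h2
    have h4 : fderiv ℝ En q d = integ (appl (nem (fderiv ℝ (Qf g))
        (hQ.continuous_fderiv (by simp)) (W (pt q))) (W (fderiv ℝ pt q d))) := by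
      rw [hEn]
      exact DFunLike.congr_fun h3.fderiv d
    have h5 : (fderiv ℝ pt q d).1 = d := by
      have h6 : HasFDerivAt (fun q => (pt q).1)
          ((ContinuousLinearMap.fst ℝ (E2 × E2) C(UI, E2)).comp (fderiv ℝ pt q)) q :=
        HasFDerivAt.comp (g := fun P : XX E2 => P.1) (f := pt) q hasFDerivAt_fst hptq
      have h7 : (fun q => (pt q).1) =ᶠ[𝓝 q] fun q => q := by
        filter_upwards [isOpen_ball.mem_nhds hq] with q' hq'
        exact (hpt q' hq').2.1
      have h8 := (h6.congr_of_eventuallyEq h7.symm).unique (hasFDerivAt_id q)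
      exact DFunLike.congr_fun h8 d
    rw [h4, first_variation hg hsymm hpos (pt q) (hpt q hq).2.2.1, h5, (hpt q hq).2.1]
  refine ⟨δ, fun x y => ext (G (pt (x, y))), fun x y => ext (G' (pt (x, y))), En, hδ, hδR, ?_,
    ?_, ?_, ?_⟩
  · rw [ball_prod_same]
    intro q hq
    exact ((hEnC q hq).of_le (by norm_num)).contDiffWithinAt
  · intro x hx y hy
    have hq := hmem x hx y hy
    obtain ⟨h1, h2, h3, h4⟩ := hpt (x, y) hq
    refine ⟨?_, ?_, ?_, ?_, ?_, ?_, ?_⟩
    · beta_reduce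
      rw [ext_of_mem _ 0 (by simp)]
      have := G_zero (pt (x, y))
      rw [h2] at this
      exact this
    · beta_reduce
      rw [ext_of_mem _ 1 (by simp)]
      have := G_one (pt (x, y))
      rw [h2] at this
      exact this
    · intro t ht
      beta_reduce
      rw [ext_of_mem _ t ht, mem_ball, dist_eq_norm]
      have := ContinuousMap.norm_coe_le_norm (G (pt (x, y)) - constL z) ⟨t, ht⟩
      exact lt_of_le_of_lt this h4
    · intro t ht
      exact hasDerivWithinAt_G (pt (x, y)) t ht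
    · exact (continuous_ext _).continuousOn
    · intro t ht
      beta_reduce
      rw [ext_of_mem _ t ht, ext_of_mem _ t ht, speed_const hg hsymm hpos (pt (x, y)) h3 ⟨t, ht⟩,
        hEn]
    · intro u v
      have := hEnD (x, y) hq (u, v)
      beta_reduce
      rw [this, ext_of_mem _ 1 (by simp), ext_of_mem _ 0 (by simp)]
      rfl
  · intro x hx
    have hq := hmem x hx x hx
    obtain ⟨hd1, hd2⟩ := hdiag x hx
    have hGone : G' (pt (x, x)) one' = 0 := by
      rw [hd1, G'_apply]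
      simp
    have hGzero : G' (pt (x, x)) zero' = 0 := by
      rw [hd1, G'_apply]
      simp
    refine ⟨?_, ?_⟩
    · rw [hEn]
      have : nem (Qf g) hQ.continuous (W (pt (x, x))) = 0 := by
        ext t
        rw [hd1, W_diag]
        simp [Qf]
      simp only [this, map_zero]
    · intro u v u' v'
      have hptx : HasFDerivAt pt (ContinuousLinearMap.inl ℝ (E2 × E2) C(UI, E2)) (x, x) := by
        rw [← hd2]
        exact ((hpt _ hq).1.differentiableAt (by simp)).hasFDerivAt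
      have hdd : DifferentiableAt ℝ (fderiv ℝ En) (x, x) :=
        ((hEnC _ hq).fderiv_right (m := 1) (by norm_num)).differentiableAt (by simp)
      have h1 : D2 En (x, x) (u, v) (u', v') =
          fderiv ℝ (fun q => fderiv ℝ En q (u', v')) (x, x) (u, v) := by
        have h2 := hdd.hasFDerivAt.clm_apply (hasFDerivAt_const ((u', v') : E2 × E2) (x, x))
        rw [h2.fderiv]
        simp [D2]
      have hev : (fun q => fderiv ℝ En q (u', v')) =ᶠ[𝓝 ((x, x) : E2 × E2)]
          fun q => g q.2 (G' (pt q) one') v' - g q.1 (G' (pt q) zero') u' := by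
        filter_upwards [isOpen_ball.mem_nhds hq] with q hq'
        exact hEnD q hq' (u', v')
      have ha : ∀ t : UI, HasFDerivAt (fun q => G' (pt q) t)
          (((evL t).comp (G' (E := E2))).comp (ContinuousLinearMap.inl ℝ (E2 × E2) C(UI, E2)))
          (x, x) := fun t =>
        HasFDerivAt.comp (g := fun P : XX E2 => G' P t) (f := pt) (x, x)
          (hasFDerivAt_evG' t _) hptx
      have hg2 : HasFDerivAt (fun q : E2 × E2 => g q.2)
          ((fderiv ℝ g x).comp (ContinuousLinearMap.snd ℝ E2 E2)) (x, x) :=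
        HasFDerivAt.comp (g := g) (f := fun p : E2 × E2 => p.2) (x, x)
          (hg.differentiable (by simp) x).hasFDerivAt hasFDerivAt_snd
      have hg1 : HasFDerivAt (fun q : E2 × E2 => g q.1)
          ((fderiv ℝ g x).comp (ContinuousLinearMap.fst ℝ E2 E2)) (x, x) :=
        HasFDerivAt.comp (g := g) (f := fun p : E2 × E2 => p.1) (x, x)
          (hg.differentiable (by simp) x).hasFDerivAt hasFDerivAt_fst
      have h2 := (hg2.clm_apply (ha one')).clm_apply (hasFDerivAt_const v' ((x, x) : E2 × E2))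
      have h3 := (hg1.clm_apply (ha zero')).clm_apply (hasFDerivAt_const u' ((x, x) : E2 × E2))
      have h4 : fderiv ℝ (fun q => g q.2 (G' (pt q) one') v' - g q.1 (G' (pt q) zero') u')
        (x, x) = _ := (h2.sub h3).fderiv
      rw [h1, hev.fderiv_eq, h4]
      simp [hGone, hGzero, G'_apply]
      ring
  · -- prolongation
    intro ε hε
    have hz : z ∈ ball z δ := mem_ball_self hδ
    have hq := hmem z hz z hz
    obtain ⟨hd1, hd2⟩ := hdiag z hz
    obtain ⟨half, hhalf⟩ : ∃ half : UI, (half : ℝ) = 1 / 2 :=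
      ⟨⟨1 / 2, by constructor <;> norm_num⟩, rfl⟩
    have hptz : HasFDerivAt pt (ContinuousLinearMap.inl ℝ (E2 × E2) C(UI, E2)) (z, z) := by
      rw [← hd2]
      exact ((hpt _ hq).1.differentiableAt (by simp)).hasFDerivAt
    have h1 : HasFDerivAt (fun q : E2 × E2 => (q.1, G (pt q) half))
        ((ContinuousLinearMap.fst ℝ E2 E2).prod
          (((evL half).comp (G (E := E2))).comp
            (ContinuousLinearMap.inl ℝ (E2 × E2) C(UI, E2)))) (z, z) :=
      hasFDerivAt_fst.prodMk (HasFDerivAt.comp (g := fun P : XX E2 => G P half) (f := pt) (z, z)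
        (hasFDerivAt_evG half _) hptz)
    have h2 : ContDiffAt ℝ 5 (fun q : E2 × E2 => (q.1, G (pt q) half)) (z, z) := by
      refine contDiffAt_fst.prodMk ?_
      have h3 : ContDiff ℝ ∞ (fun P : XX E2 => G P half) :=
        ContinuousLinearMap.contDiff (𝕜 := ℝ) (E := XX E2) (F := E2)
          ((evL half).comp (G (E := E2)))
      exact ContDiffAt.comp (g := fun P : XX E2 => G P half) (f := pt) (z, z)
        (h3.contDiffAt.of_le (by norm_cast)) (hpt _ hq).1
    have h3 := h2.hasStrictFDerivAt' h1 (by simp)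
    have hsurj : ((ContinuousLinearMap.fst ℝ E2 E2).prod
          (((evL half).comp (G (E := E2))).comp
            (ContinuousLinearMap.inl ℝ (E2 × E2) C(UI, E2)))).range = ⊤ := by
      rw [LinearMap.range_eq_top]
      rintro ⟨a, b⟩
      refine ⟨(a, (2 : ℝ) • b - a), ?_⟩
      refine Prod.ext rfl ?_
      simp [G_apply, hhalf]
      module
    have h4 := h3.map_nhds_eq_of_surj hsurj
    have h5 : (((z, z) : E2 × E2).1, G (pt (z, z)) half) = (z, z) := by
      refine Prod.ext rfl ?_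
      simp [hd1, G_apply]
    rw [h5] at h4
    have h6 : (fun q : E2 × E2 => (q.1, G (pt q) half)) '' (ball (z, z) ε) ∈
        𝓝 ((z, z) : E2 × E2) := by
      rw [← h4]
      exact image_mem_map (ball_mem_nhds _ hε)
    obtain ⟨δ', hδ', hsub⟩ := Metric.mem_nhds_iff.1 h6
    refine ⟨δ', hδ', ?_⟩
    intro p hp m hm
    have hpm : ((p, m) : E2 × E2) ∈ ball ((z, z) : E2 × E2) δ' := by
      rw [← ball_prod_same]
      exact ⟨hp, hm⟩
    obtain ⟨q, hq1, hq2⟩ := hsub hpm
    have hqp : q.1 = p := congrArg Prod.fst hq2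
    have hqm : G (pt q) half = m := congrArg Prod.snd hq2
    rw [← ball_prod_same] at hq1
    refine ⟨q.2, hq1.2, ?_⟩
    have e : ((p, q.2) : E2 × E2) = q := by rw [← hqp]
    have e2 : ext (G (pt (p, q.2))) (1 / 2) = m := by
      rw [e, ← hhalf, ext_apply, hqm]
    exact e2

end Pool.Agent.Helper68Nets
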