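import Pool.Agent.Helper4_Nets.M4.Split

/-!
Module M4 of the blueprint, step P5: a common kernel forces `Dd` to be linear in the direction.
-/

set_option autoImplicit false

open Set Filter Topology Metric
open scoped ContDiff

namespace Pool.Agent.Helper4Nets

lemma gm_zero_right (ρ : E2 → E2 → ℝ) (x w : E2) : gm ρ x w 0 = 0 := by
  have := gm_smul_right ρ x 0 w 0
  simpa using this

namespace NiceLocal

variable {ρ : E2 → E2 → ℝ} {z : E2} {s : ℝ} {B : Set E2} (h : NiceLocal ρ z s B)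

include h

/-- the eikonal equation in a fixed basis -/
lemma eik_basis {x y : E2} (hx : x ∈ B) (hy : y ∈ B) (hne : x ≠ y) {e₁ e₂ : E2}
    (hsp : ∀ v : E2, ∃ s t : ℝ, v = s • e₁ + t • e₂) :
    gm ρ y e₂ e₂ * lam ρ x y e₁ ^ 2 - 2 * gm ρ y e₁ e₂ * lam ρ x y e₁ * lam ρ x y e₂
      + gm ρ y e₁ e₁ * lam ρ x y e₂ ^ 2 - (gm ρ y e₁ e₁ * gm ρ y e₂ e₂ - gm ρ y e₁ e₂ ^ 2) = 0 := by
  obtain ⟨θ, h1, h2⟩ := h.exists_grad hx hy hne
  obtain ⟨s, t, rfl⟩ := hsp θ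
  rw [h1 e₁, h1 e₂]
  simp only [gm_add_left, gm_smul_left, gm_add_right, gm_smul_right] at h2 ⊢
  rw [h.gm_symm hy e₂ e₁] at h2 ⊢
  linear_combination (gm ρ y e₁ e₁ * gm ρ y e₂ e₂ - gm ρ y e₁ e₂ ^ 2) * h2

/-- the metric coefficients are differentiable -/
lemma gm_line {m : E2} (hm : m ∈ B) (v e e' : E2) :
    ∃ d : ℝ, HasDerivAt (fun t : ℝ => gm ρ (m + t • v) e e') d 0 := by
  have h1 : ContDiffAt ℝ 3 (fderiv ℝ (sg ρ)) (m, m) :=
    contDiffAt_fderiv_of (m := 3) (n := 4) le_rfl (h.sg_cd hm hm)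
  have h2 : ContDiffAt ℝ 2 (fderiv ℝ (fderiv ℝ (sg ρ))) (m, m) :=
    h1.fderiv_right (by norm_num)
  have h3 : DifferentiableAt ℝ (fderiv ℝ (fderiv ℝ (sg ρ))) (m, m) :=
    h2.differentiableAt (by norm_num)
  have h4 : DifferentiableAt ℝ (fun t : ℝ => ((m + t • v, m + t • v) : E2 × E2)) 0 := by fun_prop
  have h5 : DifferentiableAt ℝ (fun t : ℝ => fderiv ℝ (fderiv ℝ (sg ρ)) (m + t • v, m + t • v)) 0 := by
    refine DifferentiableAt.comp (g := fderiv ℝ (fderiv ℝ (sg ρ)))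
      (f := fun t : ℝ => ((m + t • v, m + t • v) : E2 × E2)) 0 ?_ h4
    simpa using h3
  have h6 : DifferentiableAt ℝ (fun t : ℝ => gm ρ (m + t • v) e e') 0 :=
    (h5.clm_apply (differentiableAt_const _)).clm_apply (differentiableAt_const _)
  exact ⟨_, h6.hasDerivAt⟩

end NiceLocal

/-- STEP 7: a common kernel forces `Dd` to be linear in the direction. -/
theorem p5 : P5 := by
  intro ρ z s B h ξ η hF
  obtain ⟨s₁, hs₁, hsB, c, hc, hmono⟩ := h.exists_mono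
  refine ⟨s₁, hs₁, fun s₂ h21 m hm => ?_⟩
  rintro ⟨ζ, μ, hnz, hker⟩
  have hb21 : ball z s₂ ⊆ ball z s₁ := ball_subset_ball h21
  have hbB : ball z s₂ ⊆ B := hb21.trans hsB
  have hmB : m ∈ B := hbB hm
  have hballm : ball z s₂ ∈ 𝓝 m := isOpen_ball.mem_nhds hm
  -- `ζ ≠ 0`
  have hζ : ζ ≠ 0 := by
    rintro rfl
    have hμ : μ ≠ 0 := fun h0 => hnz ⟨rfl, h0⟩
    have hg := h.gm_pos hmB hμ
    have hs : 0 < √(gm ρ m μ μ) := Real.sqrt_pos.2 hg
    have hee : gm ρ m ((√(gm ρ m μ μ))⁻¹ • μ) ((√(gm ρ m μ μ))⁻¹ • μ) = 1 := by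
      rw [gm_smul_left, gm_smul_right]
      have := Real.mul_self_sqrt hg.le
      field_simp
      nlinarith
    obtain ⟨t, ht, -, p, hpW, hpB, hne, -, hlam, -⟩ := h.exists_ray hmB hee hballm one_pos
    have h1 := hker p hpW hne
    rw [map_zero, mul_zero, hlam, gm_smul_left] at h1
    have : 0 < (√(gm ρ m μ μ))⁻¹ * gm ρ m μ μ := by positivity
    linarith
  have hgζ := h.gm_pos hmB hζ
  set r := √(gm ρ m ζ ζ) with hr
  have hr0 : 0 < r := Real.sqrt_pos.2 hgζ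
  have hrr : r * r = gm ρ m ζ ζ := Real.mul_self_sqrt hgζ.le
  obtain ⟨e₁, he₁⟩ : ∃ e : E2, e = r⁻¹ • ζ := ⟨_, rfl⟩
  have h11 : gm ρ m e₁ e₁ = 1 := by
    rw [he₁, gm_smul_left, gm_smul_right, ← hrr]; field_simp
  obtain ⟨e₂, h22, h12, hsp⟩ := h.exists_onb hmB h11
  have h21' : gm ρ m e₂ e₁ = 0 := by rw [h.gm_symm hmB]; exact h12
  -- (i)
  set a := gm ρ m e₁ μ / (2 * r) with ha
  set b := gm ρ m e₂ μ / (2 * r) with hb
  have hi : ∀ p ∈ ball z s₂, p ≠ m →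
      Dd ρ ξ p m e₁ = a * lam ρ p m e₁ + b * lam ρ p m e₂ := by
    intro p hp hne
    have h1 := hker p hp hne
    have h2 : lam ρ p m μ = gm ρ m e₁ μ * lam ρ p m e₁ + gm ρ m e₂ μ * lam ρ p m e₂ := by
      conv_lhs => rw [hsp μ]
      rw [map_add, map_smul, map_smul]; rfl
    have h4 : Dd ρ ξ p m e₁ = r⁻¹ * Dd ρ ξ p m ζ := by
      rw [he₁, map_smul, smul_eq_mul]
    rw [h4]
    have h3 : Dd ρ ξ p m ζ = (gm ρ m e₁ μ * lam ρ p m e₁ + gm ρ m e₂ μ * lam ρ p m e₂) / 2 := by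
      linarith
    rw [h3, ha, hb]
    field_simp
  -- sum of squares
  have hsq : ∀ p ∈ B, p ≠ m → lam ρ p m e₁ ^ 2 + lam ρ p m e₂ ^ 2 = 1 := by
    intro p hp hne
    obtain ⟨θ, h1, h2⟩ := h.exists_grad hp hmB hne
    rw [h.gm_parseval hmB h11 h22 h12 hsp] at h2
    rw [h1, h1, h.gm_symm hmB θ, h.gm_symm hmB θ]
    exact h2
  -- (ii)
  obtain ⟨α, hα⟩ := h.gm_line hmB (ξ m) e₁ e₁
  obtain ⟨β, hβ⟩ := h.gm_line hmB (ξ m) e₁ e₂
  obtain ⟨γ, hγ⟩ := h.gm_line hmB (ξ m) e₂ e₂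
  have hii : ∀ p ∈ B, p ≠ m →
      2 * (lam ρ p m e₁ * Dd ρ ξ p m e₁ + lam ρ p m e₂ * Dd ρ ξ p m e₂) =
        α * lam ρ p m e₁ ^ 2 + 2 * β * (lam ρ p m e₁ * lam ρ p m e₂) + γ * lam ρ p m e₂ ^ 2 := by
    intro p hp hne
    have hP : ∀ e : E2, HasDerivAt (fun t : ℝ => lam ρ (p + t • ξ p) (m + t • ξ m) e)
        (Dd ρ ξ p m e) 0 := by
      intro e
      have hcd : ContDiffAt ℝ 2 (unc ρ) ((p, m) + (0 : ℝ) • (ξ p, ξ m)) := by
        simpa using h.unc_cd2 hp hmB hne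
      have h1 := line_d2 (f := unc ρ) (x := (p, m)) (v := (ξ p, ξ m)) (t := 0) hcd (0, e)
      simp only [zero_smul, add_zero] at h1
      exact h1
    have hev : ∀ᶠ t in 𝓝 (0 : ℝ), p + t • ξ p ∈ B ∧ m + t • ξ m ∈ B ∧
        p + t • ξ p ≠ m + t • ξ m := by
      have c1 : Tendsto (fun t : ℝ => p + t • ξ p) (𝓝 0) (𝓝 p) := by
        have : Continuous (fun t : ℝ => p + t • ξ p) := by fun_prop
        simpa using this.tendsto 0
      have c2 : Tendsto (fun t : ℝ => m + t • ξ m) (𝓝 0) (𝓝 m) := by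
        have : Continuous (fun t : ℝ => m + t • ξ m) := by fun_prop
        simpa using this.tendsto 0
      exact (c1.eventually (h.nhds hp)).and ((c2.eventually (h.nhds hmB)).and ((c1.prodMk_nhds c2).eventually (NiceLocal.ne_nhds hne)))
    have hzero : (fun t : ℝ =>
        gm ρ (m + t • ξ m) e₂ e₂ * lam ρ (p + t • ξ p) (m + t • ξ m) e₁ ^ 2
        - 2 * gm ρ (m + t • ξ m) e₁ e₂ * lam ρ (p + t • ξ p) (m + t • ξ m) e₁ *
            lam ρ (p + t • ξ p) (m + t • ξ m) e₂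
        + gm ρ (m + t • ξ m) e₁ e₁ * lam ρ (p + t • ξ p) (m + t • ξ m) e₂ ^ 2
        - (gm ρ (m + t • ξ m) e₁ e₁ * gm ρ (m + t • ξ m) e₂ e₂
            - gm ρ (m + t • ξ m) e₁ e₂ ^ 2)) =ᶠ[𝓝 0] fun _ => 0 := by
      filter_upwards [hev] with t ht
      exact h.eik_basis ht.1 ht.2.1 ht.2.2 (fun v => ⟨_, _, hsp v⟩)
    have l1 := hP e₁
    have l2 := hP e₂
    have hd := ((((hγ.mul (l1.pow 2)).sub (((hβ.const_mul 2).mul l1).mul l2)).add
      (hα.mul (l2.pow 2))).sub ((hα.mul hγ).sub (hβ.pow 2)))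
    have hd0 := (hasDerivAt_const (0 : ℝ) (0 : ℝ)).congr_of_eventuallyEq hzero
    have hu := hd.unique hd0
    simp only [zero_smul, add_zero, h11, h22, h12] at hu
    have hs := hsq p hp hne
    norm_num at hu
    simp only [add_zero, h12, mul_zero, zero_mul] at hu
    have key : 2 * (lam ρ p m e₁ * Dd ρ ξ p m e₁ + lam ρ p m e₂ * Dd ρ ξ p m e₂) =
      (α + γ) * (lam ρ p m e₁ ^ 2 + lam ρ p m e₂ ^ 2) - γ * lam ρ p m e₁ ^ 2
        + 2 * β * (lam ρ p m e₁ * lam ρ p m e₂) - α * lam ρ p m e₂ ^ 2 := by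
      rw [hs]
      linarith
    rw [key]
    ring
  -- (iii)
  have haα : 2 * a = α := by
    obtain ⟨t, ht, -, p, hpW, hpB, hne, -, hlam, -⟩ := h.exists_ray hmB h11 hballm one_pos
    have h1 := hii p hpB hne
    have h2 := hi p hpW hne
    rw [h2, hlam e₁, hlam e₂, h11, h12] at h1
    linarith
  have hiii : ∀ p ∈ ball z s₂, p ≠ m → lam ρ p m e₂ ≠ 0 →
      Dd ρ ξ p m e₂ = (β - b) * lam ρ p m e₁ + γ / 2 * lam ρ p m e₂ := by
    intro p hp hne hy
    have h1 := hii p (hbB hp) hne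
    rw [hi p hp hne, ← haα] at h1
    have h2 : lam ρ p m e₂ * (Dd ρ ξ p m e₂ -
        ((β - b) * lam ρ p m e₁ + γ / 2 * lam ρ p m e₂)) = 0 := by linarith
    rcases mul_eq_zero.1 h2 with h3 | h3
    · exact absurd h3 hy
    · linarith
  -- (iv)
  have hiv : ∀ p ∈ ball z s₂, p ≠ m →
      Dd ρ ξ p m e₂ = (β - b) * lam ρ p m e₁ + γ / 2 * lam ρ p m e₂ := by
    intro p hp hne
    by_cases hy : lam ρ p m e₂ ≠ 0
    · exact hiii p hp hne hy
    push Not at hy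
    have hpB := hbB hp
    have hline : Tendsto (fun t : ℝ => p + t • e₂) (𝓝[≠] 0) (𝓝 p) := by
      have : Continuous (fun t : ℝ => p + t • e₂) := by fun_prop
      have := this.tendsto 0
      simp only [zero_smul, add_zero] at this
      exact this.mono_left nhdsWithin_le_nhds
    have hderiv : HasDerivAt (fun t : ℝ => Psi ρ m (p + t • e₂) e₂)
        (D2 (sg ρ) (p, m) (e₂, 0) (0, e₂)) 0 := by
      have h1 := (h.Psi_strict hpB hmB).hasFDerivAt
      have h2 : HasDerivAt (fun t : ℝ => p + t • e₂) e₂ 0 := by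
        simpa using ((hasDerivAt_id (0 : ℝ)).smul_const e₂).const_add p
      have h3 := HasFDerivAt.comp_hasDerivAt_of_eq (0 : ℝ) h1 h2 (by simp)
      have h4 := h3.clm_apply (hasDerivAt_const 0 e₂)
      simpa using h4
    have he₂ : e₂ ≠ 0 := by
      rintro rfl
      rw [gm_zero_left] at h22
      exact zero_ne_one h22
    have hneg : D2 (sg ρ) (p, m) (e₂, 0) (0, e₂) ≠ 0 := by
      have h1 := hmono p (hb21 hp) m (hb21 hm) e₂
      have : 0 < c * ‖e₂‖ ^ 2 := by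
        have := norm_pos_iff.2 he₂
        positivity
      linarith
    have hev1 : ∀ᶠ t in 𝓝[≠] (0 : ℝ), Psi ρ m (p + t • e₂) e₂ ≠ 0 := by
      exact hderiv.eventually_ne hneg
    have hev2 : ∀ᶠ t in 𝓝[≠] (0 : ℝ), p + t • e₂ ∈ ball z s₂ :=
      hline (isOpen_ball.mem_nhds hp)
    have hev3 : ∀ᶠ t in 𝓝[≠] (0 : ℝ), p + t • e₂ ≠ m :=
      hline (isOpen_ne.mem_nhds hne)
    have hlamc : ∀ e : E2, ContinuousAt (fun q : E2 => lam ρ q m e) p := by
      intro e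
      exact D1_apply_cont (φ := fun q : E2 => (q, m)) (v := fun _ => (0, e))
        ((h.unc_cd hpB hmB hne).of_le (by norm_num)) (by fun_prop) continuousAt_const
    have hDc : ContinuousAt (fun q : E2 => Dd ρ ξ q m e₂) p :=
      D2_apply_cont (φ := fun q : E2 => (q, m)) (v := fun q => (ξ q, ξ m))
        (w := fun _ => (0, e₂)) (h.unc_cd2 hpB hmB hne) (by fun_prop)
        ((h.xi_cont hF hpB).prodMk continuousAt_const) continuousAt_const
    have t1 : Tendsto (fun t : ℝ => Dd ρ ξ (p + t • e₂) m e₂) (𝓝[≠] 0) (𝓝 (Dd ρ ξ p m e₂)) :=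
      hDc.tendsto.comp hline
    have t2 : Tendsto (fun t : ℝ => (β - b) * lam ρ (p + t • e₂) m e₁ +
        γ / 2 * lam ρ (p + t • e₂) m e₂) (𝓝[≠] 0)
        (𝓝 ((β - b) * lam ρ p m e₁ + γ / 2 * lam ρ p m e₂)) :=
      (((hlamc e₁).tendsto.comp hline).const_mul _).add
        (((hlamc e₂).tendsto.comp hline).const_mul _)
    refine tendsto_nhds_unique t1 (t2.congr' ?_)
    filter_upwards [hev1, hev2, hev3] with t ht1 ht2 ht3
    refine (hiii _ ht2 ht3 ?_).symm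
    intro h0
    apply ht1
    rw [h.Psi_eq (hbB ht2) hmB ht3, h0, mul_zero]
  -- conclusion
  refine ⟨(gmL ρ m e₁).smulRight (a • e₁ + b • e₂) +
    (gmL ρ m e₂).smulRight ((β - b) • e₁ + (γ / 2) • e₂), fun p hp hne v => ?_⟩
  conv_lhs => rw [hsp v]
  rw [map_add, map_smul, map_smul, hi p hp hne, hiv p hp hne]
  simp only [add_apply, ContinuousLinearMap.smulRight_apply, gmL_apply,
    map_add, map_smul, smul_eq_mul]

end Pool.Agent.Helper4Nets
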