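import Pool.Agent.Helper68_Nets.Nemytskii

/-!
Curves on `[0,1]` with prescribed end points and second derivative, as a continuous linear
function of these data (helper file for MP_f059bd_gt, module M1).
-/

set_option autoImplicit false

open Set Filter Topology Metric
open scoped ContDiff

namespace Pool.Agent.Helper68Nets

/-- The unit interval as a type. -/
abbrev UI : Type := Set.Icc (0 : ℝ) 1

variable {E : Type} [NormedAddCommGroup E] [NormedSpace ℝ E]
variable {F : Type} [NormedAddCommGroup F] [NormedSpace ℝ F]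

/-- Extension of a function on `[0,1]` to the line. -/
noncomputable def ext (u : C(UI, E)) : ℝ → E := Set.IccExtend (zero_le_one) u

omit [NormedSpace ℝ E] in
lemma continuous_ext (u : C(UI, E)) : Continuous (ext u) := u.continuous.Icc_extend'

omit [NormedSpace ℝ E] in
lemma ext_apply (u : C(UI, E)) (t : UI) : ext u t = u t := by
  simp [ext]

omit [NormedSpace ℝ E] in
lemma ext_of_mem (u : C(UI, E)) (t : ℝ) (ht : t ∈ Icc (0 : ℝ) 1) : ext u t = u ⟨t, ht⟩ := by
  simpa using ext_apply u ⟨t, ht⟩

omit [NormedSpace ℝ E] in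
lemma norm_ext_le (u : C(UI, E)) (t : ℝ) : ‖ext u t‖ ≤ ‖u‖ :=
  ContinuousMap.norm_coe_le_norm u _

/-- The primitive vanishing at `0`. -/
noncomputable def J : C(UI, E) →L[ℝ] C(UI, E) :=
  LinearMap.mkContinuous
    { toFun := fun u => ⟨fun t => ∫ s in (0 : ℝ)..t, ext u s,
        (intervalIntegral.continuous_primitive
          (fun a b => (continuous_ext u).intervalIntegrable a b) 0).comp continuous_subtype_val⟩
      map_add' := fun u v => by
        ext t
        simp only [ContinuousMap.coe_mk, ContinuousMap.add_apply]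
        rw [← intervalIntegral.integral_add ((continuous_ext u).intervalIntegrable _ _)
          ((continuous_ext v).intervalIntegrable _ _)]
        rfl
      map_smul' := fun c u => by
        ext t
        simp only [ContinuousMap.coe_mk, ContinuousMap.smul_apply, RingHom.id_apply]
        rw [← intervalIntegral.integral_smul]
        rfl } 1
    (fun u => by
      rw [one_mul]
      refine (ContinuousMap.norm_le _ (by positivity)).2 fun t => ?_
      have := intervalIntegral.norm_integral_le_of_norm_le_const (a := (0 : ℝ)) (b := (t : ℝ))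
        (f := ext u) (C := ‖u‖) (fun s _ => norm_ext_le u s)
      refine this.trans ?_
      have h0 := t.2.1
      have h1 := t.2.2
      rw [sub_zero, abs_of_nonneg h0]
      nlinarith [norm_nonneg u])

lemma J_apply (u : C(UI, E)) (t : UI) : J u t = ∫ s in (0 : ℝ)..t, ext u s := rfl

lemma J_zero (u : C(UI, E)) (h : (0 : ℝ) ∈ Icc (0 : ℝ) 1) : J u ⟨0, h⟩ = 0 := by
  simp [J_apply]

lemma hasDerivWithinAt_ext_J [CompleteSpace E] (u : C(UI, E)) (t : ℝ) (ht : t ∈ Icc (0 : ℝ) 1) :
    HasDerivWithinAt (ext (J u)) (ext u t) (Icc 0 1) t := by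
  have h1 : HasDerivAt (fun r => ∫ s in (0 : ℝ)..r, ext u s) (ext u t) t :=
    intervalIntegral.integral_hasDerivAt_right ((continuous_ext u).intervalIntegrable _ _)
      ((continuous_ext u).stronglyMeasurableAtFilter _ _) (continuous_ext u).continuousAt
  refine h1.hasDerivWithinAt.congr (fun r hr => ?_) ?_
  · rw [ext_of_mem _ r hr, J_apply]
  · rw [ext_of_mem _ t ht, J_apply]

/-- Constant functions. -/
noncomputable def constL : E →L[ℝ] C(UI, E) :=
  LinearMap.mkContinuous
    { toFun := fun v => ContinuousMap.const _ v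
      map_add' := fun v w => by ext t; simp
      map_smul' := fun c v => by ext t; simp } 1
    (fun v => by
      rw [one_mul]
      exact (ContinuousMap.norm_le _ (by positivity)).2 fun t => le_rfl)

@[simp] lemma constL_apply (v : E) (t : UI) : constL v t = v := rfl

/-- Functions `t ↦ t v`. -/
noncomputable def rampL : E →L[ℝ] C(UI, E) :=
  LinearMap.mkContinuous
    { toFun := fun v => ⟨fun t => (t : ℝ) • v, by fun_prop⟩
      map_add' := fun v w => by ext t; simp
      map_smul' := fun c v => by
        ext t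
        simp only [ContinuousMap.coe_mk, ContinuousMap.smul_apply, RingHom.id_apply]
        exact smul_comm _ _ _ } 1
    (fun v => by
      rw [one_mul]
      refine (ContinuousMap.norm_le _ (by positivity)).2 fun t => ?_
      have h0 := t.2.1
      have h1 := t.2.2
      simp only [LinearMap.coe_mk, AddHom.coe_mk, ContinuousMap.coe_mk, norm_smul,
        Real.norm_eq_abs, abs_of_nonneg h0]
      nlinarith [norm_nonneg v])

@[simp] lemma rampL_apply (v : E) (t : UI) : rampL v t = (t : ℝ) • v := rfl

/-- Evaluation at a point. -/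
noncomputable def evL (t : UI) : C(UI, E) →L[ℝ] E := ContinuousMap.evalCLM ℝ t

@[simp] lemma evL_apply (t : UI) (u : C(UI, E)) : evL t u = u t := rfl

/-- Pairing. -/
noncomputable def pairL : C(UI, E) × C(UI, F) →L[ℝ] C(UI, E × F) :=
  LinearMap.mkContinuous
    { toFun := fun p => p.1.prodMk p.2
      map_add' := fun v w => by ext t <;> simp
      map_smul' := fun c v => by ext t <;> simp } 1
    (fun v => by
      rw [one_mul]
      refine (ContinuousMap.norm_le _ (by positivity)).2 fun t => ?_
      exact max_le ((ContinuousMap.norm_coe_le_norm v.1 t).trans (le_max_left _ _))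
        ((ContinuousMap.norm_coe_le_norm v.2 t).trans (le_max_right _ _)))

@[simp] lemma pairL_apply (p : C(UI, E) × C(UI, F)) (t : UI) : pairL p t = (p.1 t, p.2 t) := rfl

/-- The space of data `(x, y, f)`. -/
abbrev XX (E : Type) [NormedAddCommGroup E] : Type := (E × E) × C(UI, E)

/-- The point `1` of the unit interval. -/
def one' : UI := ⟨1, by simp⟩
/-- The point `0` of the unit interval. -/
def zero' : UI := ⟨0, by simp⟩

/-- The curve from `x` to `y` with second derivative `f`. -/
noncomputable def G : XX E →L[ℝ] C(UI, E) :=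
  constL.comp ((ContinuousLinearMap.fst ℝ E E).comp (ContinuousLinearMap.fst ℝ _ _)) +
    rampL.comp (((ContinuousLinearMap.snd ℝ E E) - (ContinuousLinearMap.fst ℝ E E)).comp
      (ContinuousLinearMap.fst ℝ _ _)) +
    (J.comp J).comp (ContinuousLinearMap.snd ℝ _ _) -
    rampL.comp ((evL one').comp ((J.comp J).comp (ContinuousLinearMap.snd ℝ _ _)))

/-- The velocity of the curve from `x` to `y` with second derivative `f`. -/
noncomputable def G' : XX E →L[ℝ] C(UI, E) :=
  constL.comp (((ContinuousLinearMap.snd ℝ E E) - (ContinuousLinearMap.fst ℝ E E)).comp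
      (ContinuousLinearMap.fst ℝ _ _)) +
    J.comp (ContinuousLinearMap.snd ℝ _ _) -
    constL.comp ((evL one').comp ((J.comp J).comp (ContinuousLinearMap.snd ℝ _ _)))

lemma G_apply (P : XX E) (t : UI) : G P t = P.1.1 + (t : ℝ) • (P.1.2 - P.1.1) + J (J P.2) t -
    (t : ℝ) • J (J P.2) one' := by
  simp [G, smul_sub]

lemma G'_apply (P : XX E) (t : UI) : G' P t = (P.1.2 - P.1.1) + J P.2 t - J (J P.2) one' := by
  simp [G']

lemma G_zero (P : XX E) : G P zero' = P.1.1 := by
  rw [G_apply]
  have := J_zero (J P.2) (by simp)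
  simp only [zero', zero_smul, add_zero, sub_zero, this]

lemma G_one (P : XX E) : G P one' = P.1.2 := by
  rw [G_apply]
  simp [one']

lemma hasDerivWithinAt_G [CompleteSpace E] (P : XX E) (t : ℝ) (ht : t ∈ Icc (0 : ℝ) 1) :
    HasDerivWithinAt (ext (G P)) (ext (G' P) t) (Icc 0 1) t := by
  have h1 := hasDerivWithinAt_ext_J (J P.2) t ht
  have h2 : HasDerivWithinAt (fun r : ℝ => P.1.1 + r • (P.1.2 - P.1.1) + ext (J (J P.2)) r -
      r • J (J P.2) one') ((P.1.2 - P.1.1) + ext (J P.2) t - J (J P.2) one') (Icc 0 1) t := by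
    have h3 : HasDerivWithinAt (fun r : ℝ => r • (P.1.2 - P.1.1)) (P.1.2 - P.1.1) (Icc 0 1) t := by
      simpa using (hasDerivWithinAt_id t (Icc 0 1)).smul_const (P.1.2 - P.1.1)
    have h4 : HasDerivWithinAt (fun r : ℝ => r • J (J P.2) one') (J (J P.2) one')
        (Icc 0 1) t := by
      simpa using (hasDerivWithinAt_id t (Icc 0 1)).smul_const (J (J P.2) one')
    have h5 := ((h3.const_add P.1.1).add h1).sub h4
    exact h5
  have e : ext (G' P) t = (P.1.2 - P.1.1) + ext (J P.2) t - J (J P.2) one' := by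
    rw [ext_of_mem _ t ht, ext_of_mem _ t ht, G'_apply]
  rw [e]
  refine h2.congr (fun r hr => ?_) ?_
  · rw [ext_of_mem _ r hr, ext_of_mem _ r hr, G_apply]
  · rw [ext_of_mem _ t ht, ext_of_mem _ t ht, G_apply]

lemma hasDerivWithinAt_G' [CompleteSpace E] (P : XX E) (t : ℝ) (ht : t ∈ Icc (0 : ℝ) 1) :
    HasDerivWithinAt (ext (G' P)) (ext P.2 t) (Icc 0 1) t := by
  have h1 := hasDerivWithinAt_ext_J P.2 t ht
  have h2 : HasDerivWithinAt (fun r : ℝ => (P.1.2 - P.1.1) + ext (J P.2) r - J (J P.2) one')
      (ext P.2 t) (Icc 0 1) t := (h1.const_add _).sub_const _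
  refine h2.congr (fun r hr => ?_) ?_
  · rw [ext_of_mem _ r hr, ext_of_mem _ r hr, G'_apply]
  · rw [ext_of_mem _ t ht, ext_of_mem _ t ht, G'_apply]

/-- Position and velocity. -/
noncomputable def W : XX E →L[ℝ] C(UI, E × E) := pairL.comp (G.prod G')

@[simp] lemma W_apply (P : XX E) (t : UI) : W P t = (G P t, G' P t) := rfl

/-- Integration over `[0,1]`. -/
noncomputable def integ : C(UI, E) →L[ℝ] E := (evL one').comp J

lemma integ_apply (u : C(UI, E)) : integ u = ∫ s in (0 : ℝ)..1, ext u s := rfl

/-- Fundamental theorem of calculus for functions with one-sided derivatives. -/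
lemma integral_eq_of_hasDerivWithinAt [CompleteSpace E] (F₀ F' : ℝ → E)
    (h : ∀ t ∈ Icc (0 : ℝ) 1, HasDerivWithinAt F₀ (F' t) (Icc 0 1) t)
    (hF' : Continuous F') (r : ℝ) (hr : r ∈ Icc (0 : ℝ) 1) :
    ∫ s in (0 : ℝ)..r, F' s = F₀ r - F₀ 0 := by
  apply intervalIntegral.integral_eq_sub_of_hasDerivAt_of_le hr.1
  · intro t ht
    have ht' : t ∈ Icc (0 : ℝ) 1 := ⟨ht.1, ht.2.trans hr.2⟩
    exact (h t ht').continuousWithinAt.mono (Icc_subset_Icc_right hr.2)
  · intro t ht
    have ht' : t ∈ Icc (0 : ℝ) 1 := ⟨ht.1.le, (ht.2.trans_le hr.2).le⟩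
    exact (h t ht').hasDerivAt (Icc_mem_nhds ht.1 (ht.2.trans_le hr.2))
  · exact hF'.intervalIntegrable _ _

end Pool.Agent.Helper68Nets
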