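import Mathlib

/-!
The right-hand side of the geodesic equation (helper file for MP_f059bd_gt, module M2).
-/

set_option autoImplicit false
set_option maxSynthPendingDepth 3

open Set Filter Topology Metric
open scoped ContDiff

namespace Pool.Agent.Helper68Nets

variable {E : Type} [NormedAddCommGroup E] [NormedSpace ℝ E]

/-- A nondegenerate bilinear form as an invertible map to the dual space. -/
lemma isInvertible_of_pos [FiniteDimensional ℝ E] (b : E →L[ℝ] E →L[ℝ] ℝ)
    (hb : ∀ v, v ≠ 0 → 0 < b v v) : b.IsInvertible := by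
  have hinj : Function.Injective b := by
    rw [injective_iff_map_eq_zero]
    intro v hv
    by_contra hne
    have := hb v hne
    rw [hv] at this
    simp at this
  have hdim : Module.finrank ℝ E = Module.finrank ℝ (E →L[ℝ] ℝ) := by
    rw [← (LinearMap.toContinuousLinearMap (𝕜 := ℝ) (E := E) (F' := ℝ)).finrank_eq]
    exact (Subspace.dual_finrank_eq (K := ℝ) (V := E)).symm
  have : FiniteDimensional ℝ (E →L[ℝ] ℝ) := by
    exact LinearEquiv.finiteDimensional
      (LinearMap.toContinuousLinearMap (𝕜 := ℝ) (E := E) (F' := ℝ))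
  have hbij : Function.Bijective b :=
    ⟨hinj, (LinearMap.injective_iff_surjective_of_finrank_eq_finrank
      (f := (b : E →ₗ[ℝ] E →L[ℝ] ℝ)) hdim).1 hinj⟩
  exact ⟨(LinearEquiv.ofBijective (b : E →ₗ[ℝ] E →L[ℝ] ℝ) hbij).toContinuousLinearEquiv, by
    ext v w; rfl⟩

variable (g : E → E →L[ℝ] E →L[ℝ] ℝ)

/-- The covector in the geodesic equation. -/
noncomputable def kap (q v : E) : E →L[ℝ] ℝ :=
  (1 / 2 : ℝ) • (((fderiv ℝ g q).flip v).flip v) - (fderiv ℝ g q v) v

lemma kap_apply (q v w : E) :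
    kap g q v w = 1 / 2 * fderiv ℝ g q w v v - fderiv ℝ g q v v w := by
  simp [kap]

/-- Second derivative of a geodesic in terms of position and velocity. -/
noncomputable def Gam (p : E × E) : E := (g p.1).inverse (kap g p.1 p.2)

variable [FiniteDimensional ℝ E]

lemma contDiff_kap (hg : ContDiff ℝ ∞ g) : ContDiff ℝ ∞ (fun p : E × E => kap g p.1 p.2) := by
  rw [contDiff_clm_apply_iff]
  intro w
  simp only [kap_apply]
  have h0 : ContDiff ℝ ∞ (fderiv ℝ g) := hg.fderiv_right (m := ∞) le_rfl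
  have h1 : ContDiff ℝ ∞ (fun p : E × E => fderiv ℝ g p.1) := h0.comp contDiff_fst
  have h2 : ContDiff ℝ ∞ (fun p : E × E => p.2) := contDiff_snd
  exact (contDiff_const.mul (((h1.clm_apply contDiff_const).clm_apply h2).clm_apply h2)).sub
    (((h1.clm_apply h2).clm_apply h2).clm_apply contDiff_const)

lemma contDiff_Gam (hg : ContDiff ℝ ∞ g) (hpos : ∀ x v, v ≠ 0 → 0 < g x v v) :
    ContDiff ℝ ∞ (Gam g) := by
  have hc : CompleteSpace E := FiniteDimensional.complete ℝ E
  have h1 : ContDiff ℝ ∞ (fun q : E => (g q).inverse) := by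
    rw [contDiff_iff_contDiffAt]
    intro q
    exact ((isInvertible_of_pos (g q) (hpos q)).contDiffAt_map_inverse (n := ∞)).comp q
      hg.contDiffAt
  exact (h1.comp contDiff_fst).clm_apply (contDiff_kap g hg)

lemma g_Gam (hpos : ∀ x v, v ≠ 0 → 0 < g x v v) (q v w : E) :
    g q (Gam g (q, v)) w = 1 / 2 * fderiv ℝ g q w v v - fderiv ℝ g q v v w := by
  obtain ⟨e, he⟩ := isInvertible_of_pos (g q) (hpos q)
  rw [← kap_apply, Gam, ← he, ContinuousLinearMap.inverse_equiv]
  simp

omit [FiniteDimensional ℝ E] in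
lemma Gam_zero (q : E) : Gam g (q, 0) = 0 := by
  have : kap g q 0 = 0 := by
    ext w
    simp [kap_apply]
  simp [Gam, this]

omit [FiniteDimensional ℝ E] in
lemma Gam_smul (q v : E) (t : ℝ) : Gam g (q, t • v) = (t ^ 2) • Gam g (q, v) := by
  have : kap g q (t • v) = (t ^ 2) • kap g q v := by
    ext w
    simp [kap_apply]
    ring
  simp [Gam, this]

lemma fderiv_Gam (hg : ContDiff ℝ ∞ g) (hpos : ∀ x v, v ≠ 0 → 0 < g x v v) (q : E) :
    fderiv ℝ (Gam g) (q, 0) = 0 := by
  have hd : HasFDerivAt (Gam g) (fderiv ℝ (Gam g) (q, 0)) (q, 0) :=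
    ((contDiff_Gam g hg hpos).differentiable (by simp) (q, 0)).hasFDerivAt
  have h1 : ∀ u : E, fderiv ℝ (Gam g) (q, 0) (u, 0) = 0 := by
    intro u
    have hc : HasFDerivAt (fun x : E => ((x, 0) : E × E)) (ContinuousLinearMap.inl ℝ E E) q :=
      (ContinuousLinearMap.inl ℝ E E).hasFDerivAt
    have h2 : HasFDerivAt (fun x : E => Gam g (x, 0))
        ((fderiv ℝ (Gam g) (q, 0)).comp (ContinuousLinearMap.inl ℝ E E)) q :=
      HasFDerivAt.comp (g := Gam g) (f := fun x : E => ((x, 0) : E × E)) q hd hc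
    have h3 : (fun x : E => Gam g (x, 0)) = fun _ => 0 := funext fun x => Gam_zero g x
    rw [h3] at h2
    have := h2.unique (hasFDerivAt_const (0 : E) q)
    have := DFunLike.congr_fun this u
    simpa using this
  have h2 : ∀ v : E, fderiv ℝ (Gam g) (q, 0) (0, v) = 0 := by
    intro v
    have hc : HasDerivAt (fun t : ℝ => ((q, t • v) : E × E)) ((0, v) : E × E) 0 := by
      have h3 : HasDerivAt (fun t : ℝ => t • v) v 0 := by
        simpa using (hasDerivAt_id (0 : ℝ)).smul_const v
      exact (hasDerivAt_const (0 : ℝ) q).prodMk h3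
    have hd' : HasFDerivAt (Gam g) (fderiv ℝ (Gam g) (q, 0)) ((fun t : ℝ => (q, t • v)) 0) := by
      simpa using hd
    have h4 : HasDerivAt (fun t : ℝ => Gam g (q, t • v)) (fderiv ℝ (Gam g) (q, 0) (0, v)) 0 :=
      HasFDerivAt.comp_hasDerivAt (l := Gam g) (f := fun t : ℝ => ((q, t • v) : E × E)) 0 hd' hc
    have h5 : (fun t : ℝ => Gam g (q, t • v)) = fun t => t ^ 2 • Gam g (q, v) :=
      funext fun t => Gam_smul g q v t
    rw [h5] at h4
    have h6 : HasDerivAt (fun t : ℝ => t ^ 2 • Gam g (q, v)) ((2 * (0 : ℝ)) • Gam g (q, v)) 0 := by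
      have := (hasDerivAt_pow 2 (0 : ℝ)).smul_const (Gam g (q, v))
      simpa using this
    have := h4.unique h6
    simpa using this
  refine ContinuousLinearMap.ext fun p => ?_
  have e : p = (p.1, 0) + (0, p.2) := by simp
  rw [e, map_add, h1, h2]
  simp

end Pool.Agent.Helper68Nets
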