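import Pool.Agent.Helper68_Nets.Curves
import Pool.Agent.Helper68_Nets.Gamma

/-!
First variation of the energy and conservation of speed along geodesics (helper file for
MP_f059bd_gt, module M2).
-/

set_option autoImplicit false
set_option maxSynthPendingDepth 3

open Set Filter Topology Metric
open scoped ContDiff

namespace Pool.Agent.Helper68Nets

variable {E : Type} [NormedAddCommGroup E] [NormedSpace ℝ E]

variable (g : E → E →L[ℝ] E →L[ℝ] ℝ)

/-- energy density -/
noncomputable def Qf (p : E × E) : ℝ := 1 / 2 * g p.1 p.2 p.2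

lemma contDiff_Qf (hg : ContDiff ℝ ∞ g) : ContDiff ℝ ∞ (Qf g) := by
  unfold Qf
  exact contDiff_const.mul (((hg.comp contDiff_fst).clm_apply contDiff_snd).clm_apply
    contDiff_snd)

lemma fderiv_Qf (hg : ContDiff ℝ ∞ g) (hsymm : ∀ x v w, g x v w = g x w v) (q w a b : E) :
    fderiv ℝ (Qf g) (q, w) (a, b) = 1 / 2 * fderiv ℝ g q a w w + g q w b := by
  have h1 : HasFDerivAt (fun p : E × E => g p.1)
      ((fderiv ℝ g q).comp (ContinuousLinearMap.fst ℝ E E)) (q, w) :=
    HasFDerivAt.comp (g := g) (f := fun p : E × E => p.1) (q, w)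
      (hg.differentiable (by simp) q).hasFDerivAt hasFDerivAt_fst
  have h2 : HasFDerivAt (fun p : E × E => p.2) (ContinuousLinearMap.snd ℝ E E) (q, w) :=
    hasFDerivAt_snd
  have h3 := ((h1.clm_apply h2).clm_apply h2).const_mul (1 / 2 : ℝ)
  have h4 : fderiv ℝ (Qf g) (q, w) = _ := h3.fderiv
  rw [h4]
  simp
  rw [hsymm q b w]
  ring

variable {g}

section

variable (hg : ContDiff ℝ ∞ g) (hsymm : ∀ x v w, g x v w = g x w v)

include hg in
lemma hasDerivWithinAt_form {c u v : ℝ → E} {c' u' v' : E} {s : Set ℝ} {t : ℝ}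
    (hc : HasDerivWithinAt c c' s t) (hu : HasDerivWithinAt u u' s t)
    (hv : HasDerivWithinAt v v' s t) :
    HasDerivWithinAt (fun r => g (c r) (u r) (v r))
      (fderiv ℝ g (c t) c' (u t) (v t) + g (c t) u' (v t) + g (c t) (u t) v') s t := by
  have h1 : HasDerivWithinAt (fun r => g (c r)) (fderiv ℝ g (c t) c') s t :=
    HasFDerivAt.comp_hasDerivWithinAt (l := g) (f := c) t
      (hg.differentiable (by simp) (c t)).hasFDerivAt hc
  have := (h1.clm_apply hu).clm_apply hv
  simpa using this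

end

variable [FiniteDimensional ℝ E]

/-- `P` is a geodesic. -/
def IsGeod (g : E → E →L[ℝ] E →L[ℝ] ℝ) (P : XX E) : Prop :=
  ∀ t : UI, P.2 t = Gam g (G P t, G' P t)

/-- First variation formula. -/
lemma first_variation (hg : ContDiff ℝ ∞ g) (hsymm : ∀ x v w, g x v w = g x w v)
    (hpos : ∀ x v, v ≠ 0 → 0 < g x v v) (P : XX E) (hP : IsGeod g P) (d : XX E) :
    integ (appl (nem (fderiv ℝ (Qf g))
      ((contDiff_Qf g hg).continuous_fderiv (by simp)) (W P)) (W d)) =
      g P.1.2 (G' P one') d.1.2 - g P.1.1 (G' P zero') d.1.1 := by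
  have hc : CompleteSpace E := FiniteDimensional.complete ℝ E
  rw [integ_apply]
  have key := integral_eq_of_hasDerivWithinAt
    (F₀ := fun t => g (ext (G P) t) (ext (G' P) t) (ext (G d) t))
    (F' := ext (appl (nem (fderiv ℝ (Qf g))
      ((contDiff_Qf g hg).continuous_fderiv (by simp)) (W P)) (W d))) ?_ (continuous_ext _) 1
      (by simp)
  · rw [key]
    have e1 : ext (G P) 1 = P.1.2 := by rw [ext_of_mem _ 1 (by simp)]; exact G_one P
    have e2 : ext (G P) 0 = P.1.1 := by rw [ext_of_mem _ 0 (by simp)]; exact G_zero P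
    have e3 : ext (G d) 1 = d.1.2 := by rw [ext_of_mem _ 1 (by simp)]; exact G_one d
    have e4 : ext (G d) 0 = d.1.1 := by rw [ext_of_mem _ 0 (by simp)]; exact G_zero d
    have e5 : ext (G' P) 1 = G' P one' := ext_of_mem _ 1 (by simp)
    have e6 : ext (G' P) 0 = G' P zero' := ext_of_mem _ 0 (by simp)
    simp only [e1, e2, e3, e4, e5, e6]
  · intro t ht
    have h := hasDerivWithinAt_form hg (hasDerivWithinAt_G P t ht) (hasDerivWithinAt_G' P t ht)
      (hasDerivWithinAt_G d t ht)
    refine h.congr_deriv ?_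
    rw [ext_of_mem (appl _ _) t ht]
    simp only [appl_apply, nem_apply, W_apply]
    rw [fderiv_Qf g hg hsymm]
    rw [ext_of_mem P.2 t ht, hP ⟨t, ht⟩, ← ext_of_mem (G P) t ht, ← ext_of_mem (G' P) t ht,
      ← ext_of_mem (G d) t ht, ← ext_of_mem (G' d) t ht, g_Gam g hpos]
    ring

/-- Conservation of speed. -/
lemma speed_const (hg : ContDiff ℝ ∞ g) (hsymm : ∀ x v w, g x v w = g x w v)
    (hpos : ∀ x v, v ≠ 0 → 0 < g x v v) (P : XX E) (hP : IsGeod g P) (t : UI) :
    g (G P t) (G' P t) (G' P t) =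
      2 * integ (nem (Qf g) (contDiff_Qf g hg).continuous (W P)) := by
  have hc : CompleteSpace E := FiniteDimensional.complete ℝ E
  have hconst : ∀ r ∈ Icc (0 : ℝ) 1, g (ext (G P) r) (ext (G' P) r) (ext (G' P) r) =
      g (ext (G P) 0) (ext (G' P) 0) (ext (G' P) 0) := by
    intro r hr
    have key := integral_eq_of_hasDerivWithinAt
      (F₀ := fun t => g (ext (G P) t) (ext (G' P) t) (ext (G' P) t))
      (F' := fun _ => 0) ?_ continuous_const r hr
    · simp only [intervalIntegral.integral_zero] at key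
      linarith
    · intro t ht
      have h := hasDerivWithinAt_form hg (hasDerivWithinAt_G P t ht)
        (hasDerivWithinAt_G' P t ht) (hasDerivWithinAt_G' P t ht)
      refine h.congr_deriv ?_
      rw [hsymm _ (ext (G' P) t) (ext P.2 t)]
      rw [ext_of_mem P.2 t ht, hP ⟨t, ht⟩, ← ext_of_mem (G P) t ht, ← ext_of_mem (G' P) t ht,
        g_Gam g hpos]
      ring
  have h2 : nem (Qf g) (contDiff_Qf g hg).continuous (W P) =
      constL (1 / 2 * g (ext (G P) 0) (ext (G' P) 0) (ext (G' P) 0)) := by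
    ext r
    simp only [nem_apply, W_apply, constL_apply, Qf]
    rw [← hconst r r.2, ext_apply, ext_apply]
  rw [h2, integ_apply]
  have h3 : ∀ c : ℝ, ∫ s in (0 : ℝ)..1, ext (constL c) s = c := by
    intro c
    have : ext (constL c) = fun _ => c := by
      funext s
      rfl
    rw [this]
    simp
  rw [h3, ← ext_apply (G P) t, ← ext_apply (G' P) t, hconst t t.2]
  ring

end Pool.Agent.Helper68Nets
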