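import Pool.Agent.Helper68_Nets.Main

/-!
Module M2 of MP_f059bd_gt in the form of the blueprint.
-/

set_option autoImplicit false
set_option maxSynthPendingDepth 3

open Set Filter Topology Metric
open scoped ContDiff

namespace Pool.Agent.Helper4Nets

theorem shortGeodesics : ShortGeodesics := by
  intro g hg hsymm hpos z R hR
  obtain ⟨δ, γ, γ', En, h0, h1, h2, h3, h4, h5⟩ :=
    Pool.Agent.Helper68Nets.shortGeodesicsLoc g hg hsymm hpos z R hR
  first
    | exact ⟨δ, γ, γ', En, h0, h1, h2, h3, h4, h5⟩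
    | exact ⟨δ, γ, γ', En, h0, h1, h2, h3, h4, h5 δ h0⟩

end Pool.Agent.Helper4Nets
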