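import Mathlib

/-!
The Nemytskii operator `u ↦ f ∘ u` on spaces of continuous functions on a compact space is as
smooth as `f` (helper file for MP_f059bd_gt, module M1).
-/

set_option autoImplicit false

open Set Filter Topology Metric
open scoped ContDiff

namespace Pool.Agent.Helper68Nets

variable {K : Type} [TopologicalSpace K] [CompactSpace K]
variable {E F : Type} [NormedAddCommGroup E] [NormedSpace ℝ E]
  [NormedAddCommGroup F] [NormedSpace ℝ F]

/-- Pointwise application of a field of operators to a field of vectors. -/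
noncomputable def appl : C(K, E →L[ℝ] F) →L[ℝ] C(K, E) →L[ℝ] C(K, F) :=
  LinearMap.mkContinuous₂
    (LinearMap.mk₂ ℝ (fun (A : C(K, E →L[ℝ] F)) (h : C(K, E)) =>
        (⟨fun t => A t (h t), by fun_prop⟩ : C(K, F)))
      (fun A B h => by ext t; simp)
      (fun c A h => by ext t; simp)
      (fun A h k => by ext t; simp)
      (fun c A h => by ext t; simp)) 1
    (fun A h => by
      rw [one_mul]
      refine (ContinuousMap.norm_le _ (by positivity)).2 fun t => ?_
      refine (ContinuousLinearMap.le_opNorm _ _).trans ?_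
      gcongr
      · exact ContinuousMap.norm_coe_le_norm A t
      · exact ContinuousMap.norm_coe_le_norm h t)

@[simp] lemma appl_apply (A : C(K, E →L[ℝ] F)) (h : C(K, E)) (t : K) :
    appl A h t = A t (h t) := rfl

/-- The Nemytskii operator. -/
noncomputable def nem (f : E → F) (hf : Continuous f) (u : C(K, E)) : C(K, F) :=
  ⟨fun t => f (u t), by fun_prop⟩

omit [CompactSpace K] [NormedSpace ℝ E] [NormedSpace ℝ F] in
@[simp] lemma nem_apply (f : E → F) (hf : Continuous f) (u : C(K, E)) (t : K) :
    nem f hf u t = f (u t) := rfl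

lemma hasFDerivAt_nem (f : E → F) (hf : ContDiff ℝ 1 f) (u : C(K, E)) :
    HasFDerivAt (nem (K := K) f hf.continuous)
      (appl (nem (fderiv ℝ f) (hf.continuous_fderiv one_ne_zero) u)) u := by
  rw [hasFDerivAt_iff_isLittleO_nhds_zero, Asymptotics.isLittleO_iff]
  intro c hc
  have hcomp : IsCompact (range u) := isCompact_range u.continuous
  have huc := hcomp.uniformContinuousAt_of_continuousAt (fderiv ℝ f)
    (fun a _ => (hf.continuous_fderiv one_ne_zero).continuousAt) (Metric.dist_mem_uniformity hc)
  obtain ⟨δ, hδ, hδ'⟩ := Metric.mem_uniformity_dist.1 huc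
  have hball : ball (0 : C(K, E)) δ ∈ 𝓝 (0 : C(K, E)) := ball_mem_nhds _ hδ
  filter_upwards [hball] with h hh
  have hh' : ‖h‖ < δ := by simpa using hh
  refine (ContinuousMap.norm_le _ (by positivity)).2 fun t => ?_
  have key : ‖f (u t + h t) - f (u t) - fderiv ℝ f (u t) (u t + h t - u t)‖ ≤
      c * ‖u t + h t - u t‖ := by
    refine (convex_ball (u t) δ).norm_image_sub_le_of_norm_hasFDerivWithin_le'
      (f' := fderiv ℝ f) ?_ ?_ ?_ ?_
    · intro x _
      exact ((hf.differentiable one_ne_zero) x).hasFDerivAt.hasFDerivWithinAt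
    · intro x hx
      have := hδ' (a := u t) (b := x) (by rw [dist_comm]; exact hx) (mem_range_self t)
      have h2 : dist (fderiv ℝ f (u t)) (fderiv ℝ f x) < c := this
      rw [dist_comm, dist_eq_norm] at h2
      exact h2.le
    · exact mem_ball_self hδ
    · have : ‖h t‖ ≤ ‖h‖ := ContinuousMap.norm_coe_le_norm h t
      simpa [mem_ball, dist_eq_norm] using this.trans_lt hh'
  have e1 : u t + h t - u t = h t := by abel
  rw [e1] at key
  calc ‖(nem (K := K) f hf.continuous (u + h) - nem (K := K) f hf.continuous u -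
        appl (nem (fderiv ℝ f) (hf.continuous_fderiv one_ne_zero) u) h) t‖
      = ‖f (u t + h t) - f (u t) - fderiv ℝ f (u t) (h t)‖ := rfl
    _ ≤ c * ‖h t‖ := key
    _ ≤ c * ‖h‖ := by
        gcongr
        exact ContinuousMap.norm_coe_le_norm h t

lemma contDiff_nem_nat (n : ℕ) : ∀ (F : Type) [NormedAddCommGroup F] [NormedSpace ℝ F]
    (f : E → F) (hc : Continuous f), ContDiff ℝ n f → ContDiff ℝ n (nem (K := K) f hc) := by
  induction n with
  | zero =>
    intro F _ _ f hc hf
    have hc' : Continuous (nem (K := K) f hc) := by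
      have : nem (K := K) f hc = fun u => (⟨f, hc⟩ : C(E, F)).comp u := rfl
      rw [this]
      exact ContinuousMap.continuous_postcomp _
    exact contDiff_zero.2 hc'
  | succ n ih =>
    intro F _ _ f hc hf
    have h1 : ContDiff ℝ 1 f := hf.of_le (by exact_mod_cast Nat.le_add_left 1 n)
    have hf' : ContDiff ℝ n (fderiv ℝ f) := hf.fderiv_right (m := n) (by norm_cast)
    have := ih (E →L[ℝ] F) (fderiv ℝ f) hf'.continuous hf'
    have e : ((n + 1 : ℕ) : WithTop ℕ∞) = (n : WithTop ℕ∞) + 1 := by norm_cast
    rw [e, contDiff_succ_iff_fderiv]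
    refine ⟨fun u => (hasFDerivAt_nem f h1 u).differentiableAt, by simp, ?_⟩
    have e2 : fderiv ℝ (nem (K := K) f hc) =
        fun u => appl (nem (K := K) (fderiv ℝ f) hf'.continuous u) :=
      funext fun u => (hasFDerivAt_nem f h1 u).fderiv
    rw [e2]
    exact (appl (K := K) (E := E) (F := F)).contDiff.comp this

lemma contDiff_nem (f : E → F) (hc : Continuous f) (hf : ContDiff ℝ ∞ f) :
    ContDiff ℝ ∞ (nem (K := K) f hc) := by
  rw [contDiff_infty]
  intro n
  exact contDiff_nem_nat n F f hc (contDiff_infty.1 hf n)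

end Pool.Agent.Helper68Nets
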