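import Pool.Agent.Helper4_Nets.Defs
import Pool.Agent.Helper68_Nets.Energy

/-!
Short geodesics of a smooth Riemannian metric on the plane (MP_f059bd_gt, module M2).
-/

set_option autoImplicit false
set_option maxSynthPendingDepth 3

open Set Filter Topology Metric
open scoped ContDiff

namespace Pool.Agent.Helper68Nets

variable {E : Type} [NormedAddCommGroup E] [NormedSpace ℝ E]

lemma contDiff_W : ContDiff ℝ ∞ (fun P : XX E => W P) :=
  ContinuousLinearMap.contDiff (𝕜 := ℝ) (E := XX E) (F := C(UI, E × E)) W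

lemma contDiff_G : ContDiff ℝ ∞ (fun P : XX E => G P) :=
  ContinuousLinearMap.contDiff (𝕜 := ℝ) (E := XX E) (F := C(UI, E)) G

lemma contDiff_G' : ContDiff ℝ ∞ (fun P : XX E => G' P) :=
  ContinuousLinearMap.contDiff (𝕜 := ℝ) (E := XX E) (F := C(UI, E)) G'

lemma hasFDerivAt_W (P : XX E) : HasFDerivAt (fun P : XX E => W P) (W (E := E)) P :=
  ContinuousLinearMap.hasFDerivAt (𝕜 := ℝ) (E := XX E) (F := C(UI, E × E)) W

lemma hasFDerivAt_evG (t : UI) (P : XX E) :
    HasFDerivAt (fun P : XX E => G P t) ((evL t).comp (G (E := E))) P :=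
  ContinuousLinearMap.hasFDerivAt (𝕜 := ℝ) (E := XX E) (F := E) ((evL t).comp (G (E := E)))

lemma hasFDerivAt_evG' (t : UI) (P : XX E) :
    HasFDerivAt (fun P : XX E => G' P t) ((evL t).comp (G' (E := E))) P :=
  ContinuousLinearMap.hasFDerivAt (𝕜 := ℝ) (E := XX E) (F := E) ((evL t).comp (G' (E := E)))

lemma hasFDerivAt_integ (u : C(UI, ℝ)) :
    HasFDerivAt (fun u : C(UI, ℝ) => integ u) (integ (E := ℝ)) u :=
  ContinuousLinearMap.hasFDerivAt (𝕜 := ℝ) (E := C(UI, ℝ)) (F := ℝ) integ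

lemma contDiff_integ : ContDiff ℝ ∞ (fun u : C(UI, ℝ) => integ u) :=
  ContinuousLinearMap.contDiff (𝕜 := ℝ) (E := C(UI, ℝ)) (F := ℝ) integ

/-- The geodesic equation as an equation in the Banach space. -/
noncomputable def Phi (g : E → E →L[ℝ] E →L[ℝ] ℝ) (hc : Continuous (Gam g)) (P : XX E) :
    C(UI, E) := P.2 - nem (Gam g) hc (W P)

/-- The geodesic equation together with the end points. -/
noncomputable def Psi (g : E → E →L[ℝ] E →L[ℝ] ℝ) (hc : Continuous (Gam g)) (P : XX E) :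
    XX E := (P.1, Phi g hc P)

variable (g : E → E →L[ℝ] E →L[ℝ] ℝ) (hc : Continuous (Gam g))

lemma W_diag (x : E) : W (E := E) ((x, x), 0) = constL ((x, 0) : E × E) := by
  ext t <;> simp [G_apply, G'_apply]

lemma Psi_diag (x : E) : Psi g hc ((x, x), 0) = ((x, x), 0) := by
  have : nem (Gam g) hc (W (E := E) ((x, x), 0)) = 0 := by
    ext t
    rw [W_diag]
    simp [Gam_zero]
  simp [Psi, Phi, this]

variable [FiniteDimensional ℝ E]

lemma contDiff_Psi (hg : ContDiff ℝ ∞ g) (hpos : ∀ x v, v ≠ 0 → 0 < g x v v) :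
    ContDiff ℝ ∞ (Psi g hc) := by
  unfold Psi Phi
  exact contDiff_fst.prodMk (contDiff_snd.sub
    ((contDiff_nem (Gam g) hc (contDiff_Gam g hg hpos)).comp contDiff_W))

lemma hasFDerivAt_Psi (hg : ContDiff ℝ ∞ g) (hpos : ∀ x v, v ≠ 0 → 0 < g x v v) (x : E) :
    HasFDerivAt (Psi g hc) (ContinuousLinearMap.id ℝ (XX E)) ((x, x), 0) := by
  have hG := contDiff_Gam g hg hpos
  have h1 : HasFDerivAt (fun P : XX E => nem (Gam g) hc (W P))
      ((appl (nem (fderiv ℝ (Gam g)) (hG.continuous_fderiv (by simp)) (W ((x, x), 0)))).comp W)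
      ((x, x), 0) :=
    HasFDerivAt.comp (g := nem (Gam g) hc) (f := fun P : XX E => W P) ((x, x), 0)
      (hasFDerivAt_nem (Gam g) (hG.of_le (by simp)) _) (hasFDerivAt_W _)
  have h2 : nem (fderiv ℝ (Gam g)) (hG.continuous_fderiv (by simp)) (W (E := E) ((x, x), 0)) =
      0 := by
    ext1 t
    rw [W_diag]
    simp [fderiv_Gam g hg hpos]
  rw [h2] at h1
  have h4 : HasFDerivAt (fun P : XX E => P.2) (ContinuousLinearMap.snd ℝ (E × E) C(UI, E))
      ((x, x), 0) := hasFDerivAt_snd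
  have h5 : HasFDerivAt (fun P : XX E => P.1) (ContinuousLinearMap.fst ℝ (E × E) C(UI, E))
      ((x, x), 0) := hasFDerivAt_fst
  have h3 := h5.prodMk (h4.sub h1)
  refine h3.congr_fderiv ?_
  refine ContinuousLinearMap.ext fun P => ?_
  simp

end Pool.Agent.Helper68Nets
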